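import Pool.Agent.NH14.LI.N19

/-!
# The exact maximal order of the error term of the divisor problem along almost all sequences of powers

Let `Δ(x) = ∑_{j ≤ x} d(j) - x (log x + 2γ - 1)` be the error term of Dirichlet's divisor problem and
`ψ(n) = (log n) ^ (1/4) (log log n) ^ ((3/4)(2 ^ (4/3) - 1))`.  There are absolute constants `0 < c < C` such that,
whenever `a_{n+1} ≥ a_n + δ` with `δ > 0` and `b_n > 0` is nondecreasing, for almost all `α > 1` the points
`x_n = b_n α ^ (a_n)` satisfy `|Δ(x_n)| ≤ C x_n ^ (1/4) ψ(n)` for all large `n`, while `Δ(x_n) ≥ c x_n ^ (1/4) ψ(n)`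
for infinitely many `n` and `Δ(x_n) ≤ - c x_n ^ (1/4) ψ(n)` for infinitely many `n`.

Proof.  Let `U_M` be the truncation at frequencies `≤ M²` of the trigonometric series of `Δ(x)/x^(1/4)`; along `x_n` it
approximates `Δ(x_n)/x_n^(1/4)` for almost all `α` if `M = (n+1)^400`.
Upper bound: the moments of order `2k` of the model `U_M` are at most
`(C k ^ (1/4) (log k) ^ ((3/4)(2^(4/3)-1)))^(2k)`; this follows from the bound
`exp(C l^(4/3) (log l) ^ (2^(4/3) - 1))` for its moment generating function, a product over squarefree numbers.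
With `k` a small multiple of `log n` the moments along `x_n`, averaged over `log α`, are close to those of the model
by the first derivative test and a Liouville type inequality for sums of square roots.
Lower bound: Riesz products over optimal sets of at most `(log j)/8` squarefree numbers, along `n = j²`, show that
`± U_M(x_n)` exceeds `c ψ(n)` on sets of parameters of positive weighted measure; these sets are nearly
uncorrelated, so that the points in infinitely many of them have a positive proportion in every interval.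
-/

set_option autoImplicit false

open MeasureTheory Filter Topology Set

namespace Pool.Agent.Results.MP_bc6037_nt.ExactOrderPowers

/-- the error term of the divisor problem -/
noncomputable def D (x : ℝ) : ℝ :=
  (∑ j ∈ Finset.Icc 1 ⌊x⌋₊, (j.divisors.card : ℝ)) - x * Real.log x - (2 * Real.eulerMascheroniConstant - 1) * x

/-- the normalizing function -/
noncomputable def psi (n : ℕ) : ℝ :=
  (Real.log n) ^ (1 / 4 : ℝ) * (Real.log (Real.log n)) ^ ((3 / 4) * ((2 : ℝ) ^ (4 / 3 : ℝ) - 1))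

theorem result : ∃ c C : ℝ, 0 < c ∧ 0 < C ∧
    ∀ (a b : ℕ → ℝ) (δ : ℝ), 0 < δ → (∀ n, a n + δ ≤ a (n + 1)) → (∀ n, 0 < b n) → Monotone b →
      ∀ᵐ α : ℝ, 1 < α →
        (∀ᶠ n : ℕ in atTop, |D (b n * α ^ (a n))| ≤ C * ((b n * α ^ (a n)) ^ (1 / 4 : ℝ) * psi n)) ∧
        (∃ᶠ n : ℕ in atTop, c * ((b n * α ^ (a n)) ^ (1 / 4 : ℝ) * psi n) ≤ D (b n * α ^ (a n))) ∧
        (∃ᶠ n : ℕ in atTop, D (b n * α ^ (a n)) ≤ -(c * ((b n * α ^ (a n)) ^ (1 / 4 : ℝ) * psi n))) := by
  obtain ⟨c, C, hc, hC, h⟩ := Pool.Agent.NH14.LI.lil_div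
  refine ⟨c, C, hc, hC, fun a b δ hδ hgap hb hmono => ?_⟩
  filter_upwards [h (fun n => a n / 2) (fun n => 2 * √(b n)) (δ / 2) (by positivity)
    (fun n => by have := hgap n; linarith) (fun n => by have := hb n; positivity)
    (fun n m hnm => mul_le_mul_of_nonneg_left (Real.sqrt_le_sqrt (hmono hnm)) (by norm_num))] with α hα h1
  obtain ⟨k1, k2, k3⟩ := hα h1
  have hα0 : 0 < α := by linarith
  have hpos : ∀ n, 0 < b n * α ^ (a n) := fun n => mul_pos (hb n) (Real.rpow_pos_of_pos hα0 _)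
  have hR : ∀ n, 2 * √(b n) * α ^ (a n / 2) = 2 * √(b n * α ^ (a n)) := by
    intro n
    rw [Real.sqrt_mul (hb n).le, Real.sqrt_eq_rpow (α ^ (a n)), ← Real.rpow_mul hα0.le]
    ring_nf
  have hD : ∀ x : ℝ, 0 < x → D x = x ^ (1 / 4 : ℝ) * Pool.Agent.H383.Div.E2 (2 * √x) := by
    intro x hx
    have e1 : Pool.Agent.H383.Div.E2 (2 * √x) = Pool.Agent.H387R2.Vor.Ed √x := by
      unfold Pool.Agent.H383.Div.E2
      congr 1; ring
    rw [e1]
    unfold Pool.Agent.H387R2.Vor.Ed Pool.Agent.H387R2.Vor.Del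
    rw [Real.sq_sqrt hx.le]
    have hs : √(√x) = x ^ (1 / 4 : ℝ) := by
      rw [Real.sqrt_eq_rpow, Real.sqrt_eq_rpow, ← Real.rpow_mul hx.le]; norm_num
    rw [hs]
    have h4 : 0 < x ^ (1 / 4 : ℝ) := by positivity
    rw [mul_div_cancel₀ _ h4.ne']
    rfl
  have hps : ∀ n : ℕ, psi n = Pool.Agent.NH14.LI.psi (3 / 4 * ((2:ℝ) ^ (4 / 3 : ℝ) - 1)) (Real.log n) := fun n => rfl
  refine ⟨?_, ?_, ?_⟩
  · filter_upwards [k1] with n hn
    have hs : 0 < (b n * α ^ (a n)) ^ (1 / 4 : ℝ) := Real.rpow_pos_of_pos (hpos n) _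
    rw [hR] at hn
    rw [hD _ (hpos n), abs_mul, abs_of_pos hs, hps]
    calc (b n * α ^ (a n)) ^ (1 / 4 : ℝ) * |Pool.Agent.H383.Div.E2 (2 * √(b n * α ^ (a n)))| ≤
          (b n * α ^ (a n)) ^ (1 / 4 : ℝ) * (C * _) := mul_le_mul_of_nonneg_left hn hs.le
      _ = _ := by ring
  · refine k2.mono fun n hn => ?_
    have hs : 0 < (b n * α ^ (a n)) ^ (1 / 4 : ℝ) := Real.rpow_pos_of_pos (hpos n) _
    rw [hR] at hn
    rw [hD _ (hpos n), hps]
    calc _ = (b n * α ^ (a n)) ^ (1 / 4 : ℝ) *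
          (c * Pool.Agent.NH14.LI.psi (3 / 4 * ((2:ℝ) ^ (4 / 3 : ℝ) - 1)) (Real.log n)) := by ring
      _ ≤ _ := mul_le_mul_of_nonneg_left hn hs.le
  · refine k3.mono fun n hn => ?_
    have hs : 0 < (b n * α ^ (a n)) ^ (1 / 4 : ℝ) := Real.rpow_pos_of_pos (hpos n) _
    rw [hR] at hn
    rw [hD _ (hpos n), hps]
    calc (b n * α ^ (a n)) ^ (1 / 4 : ℝ) * Pool.Agent.H383.Div.E2 (2 * √(b n * α ^ (a n))) ≤
          (b n * α ^ (a n)) ^ (1 / 4 : ℝ) * -(c * Pool.Agent.NH14.LI.psi (3 / 4 * ((2:ℝ) ^ (4 / 3 : ℝ) - 1)) (Real.log n)) :=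
          mul_le_mul_of_nonneg_left hn hs.le
      _ = _ := by ring

end Pool.Agent.Results.MP_bc6037_nt.ExactOrderPowers
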