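import Pool.Agent.NH14.TL.T5

/-!
# The exact order of the frequency of large values of the error term in Dirichlet's divisor problem

Let `Δ(x) = ∑_{j ≤ x} d(j) - x (log x + 2γ - 1)` and `T(V) = V⁴ (log V) ^ (-3(2^(4/3) - 1))`. There are absolute
constants `0 < c < C` such that, for every real quadratic polynomial `Q(n) = an² + bn + c₀` with `a > 0` and positive
values (for instance for all squares), the proportion of the `n` with `Δ(Q(n)) > V Q(n)^(1/4)` lies, in every interval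
`k ≤ n < k + N` with `N ≥ k^(1/2+ε)`, between `exp(-C T(V))` and `exp(-c T(V))`, for all `V ≥ V₀(Q)` and
`N ≥ N₀(Q, V, ε)`, and the same holds for `Δ(Q(n)) < -V Q(n)^(1/4)`.

Upper bound: the moment generating function of the limit law is `≤ exp(C l^(4/3) (log l)^(2^(4/3) - 1))`, by a
factorisation over squarefree numbers. Lower bound: Riesz products over optimal sets of squarefree numbers outside the
finitely many classes which are resonant with the sequence.
-/

set_option autoImplicit false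

open Filter Topology

namespace Pool.Agent.Results.MP_bc6037_nt.ExactTails

/-- the error term of the divisor problem -/
noncomputable def D (x : ℝ) : ℝ :=
  (∑ j ∈ Finset.Icc 1 ⌊x⌋₊, (j.divisors.card : ℝ)) - x * Real.log x - (2 * Real.eulerMascheroniConstant - 1) * x

/-- the order of the logarithm of the tails -/
noncomputable def T (V : ℝ) : ℝ := V ^ 4 * (Real.log V) ^ (-(3 * ((2 : ℝ) ^ (4 / 3 : ℝ) - 1)))

open Classical in
/-- the number of `k ≤ n < k + N` with `σ Δ(Q(n)) > V Q(n)^(1/4)`, `Q(n) = an² + bn + c` -/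
noncomputable def count (a b c σ V : ℝ) (k N : ℕ) : ℕ :=
  ((Finset.Ico k (k + N)).filter (fun n : ℕ =>
    V * (a * n ^ 2 + b * n + c) ^ (1 / 4 : ℝ) < σ * D (a * n ^ 2 + b * n + c))).card

theorem result : ∃ c₁ C₁ : ℝ, 0 < c₁ ∧ 0 < C₁ ∧
    ∀ a b c : ℝ, 0 < a → (∀ n : ℕ, 0 < a * n ^ 2 + b * n + c) →
      ∃ V₀ : ℝ, 2 ≤ V₀ ∧ ∀ V : ℝ, V₀ ≤ V → ∀ ε : ℝ, 0 < ε → ∃ N₀ : ℕ, ∀ N : ℕ, N₀ ≤ N → ∀ k : ℕ,
        (k : ℝ) ^ (1 / 2 + ε) ≤ N → ∀ σ : ℝ, (σ = 1 ∨ σ = -1) →
          Real.exp (-(C₁ * T V)) * N ≤ count a b c σ V k N ∧ (count a b c σ V k N : ℝ) ≤ Real.exp (-(c₁ * T V)) * N := by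
  classical
  obtain ⟨c₁, C₁, h1, h2, h⟩ := Pool.Agent.NH14.TL.tails_div
  refine ⟨c₁, C₁, h1, h2, fun a b c ha hP => ?_⟩
  obtain ⟨V₀, hV₀, h⟩ := h a b c ha hP
  refine ⟨V₀, hV₀, fun V hV ε hε => ?_⟩
  obtain ⟨N₀, h⟩ := h V hV ε hε
  refine ⟨N₀, fun N hN k hk => ?_⟩
  have hT : Pool.Agent.NH14.TL.LV (3/4 * ((2:ℝ)^(4/3:ℝ) - 1)) V = T V :=
    Pool.Agent.NH14.TL.LV_val (by ring) V
  have hk' := h N hN k hk
  rw [hT] at hk'
  have hD : ∀ x : ℝ, D x = Pool.Agent.H383.Div.Dx x := fun x => rfl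
  intro σ hσ
  rcases hσ with rfl | rfl
  · have e : count a b c 1 V k N = ((Finset.Ico k (k + N)).filter (fun n : ℕ =>
            V * (a * n^2 + b * n + c) ^ (1/4:ℝ) < Pool.Agent.H383.Div.Dx (a * n^2 + b * n + c))).card := by
      unfold count
      congr 1
      apply Finset.filter_congr
      intro n _
      rw [hD, one_mul]
    rw [e]
    exact hk'.1
  · have e : count a b c (-1) V k N = ((Finset.Ico k (k + N)).filter (fun n : ℕ =>
            Pool.Agent.H383.Div.Dx (a * n^2 + b * n + c) < -(V * (a * n^2 + b * n + c) ^ (1/4:ℝ)))).card := by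
      unfold count
      congr 1
      apply Finset.filter_congr
      intro n _
      rw [hD]
      constructor <;> intro hh <;> linarith
    rw [e]
    exact hk'.2

end Pool.Agent.Results.MP_bc6037_nt.ExactTails
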