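import Pool.Agent.NH14.SM.S7

/-!
# The error term of the divisor problem at well-spaced points

Let `Δ(x) = ∑_{n ≤ x} d(n) - x log x - (2γ-1) x`. Let `S ⊂ [Y, Y + K]` be any finite set of real numbers (`4 ≤ Y`,
`0 ≤ K ≤ Y`) whose points are at distance `≥ δ √Y` from each other, where `1/√Y ≤ δ ≤ 1`.

* Large values. If `|Δ(x)| ≥ V x^(1/4)` for all `x ∈ S`, where `V ≥ 1`, then
  `#S ≤ C Y^ε (K/(√Y V⁶) + K/(√Y V⁸ δ) + Y^(1/4)/V³ + 1/(V² δ))`.
* Hence, for `0 ≤ p ≤ 8`, `∑_{x ∈ S} |Δ(x)|^p` is at most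
  `C Y^(p/4+ε) (K/(√Y δ) + (K/√Y) Y^(max(0,(p-6)/12)) + Y^(max(1/4,p/12)) + Y^(max(0,(p-2)/12))/δ)`.
  In particular, for `p ≤ 6`, over the whole interval `[Y, 2Y]` and for all spacings `δ √Y ≤ √Y`, the mean value of
  `|Δ(x)|^p` over any `≈ √Y/δ` points of mutual distance `≥ δ √Y` is at most `Y^(p/4+ε)`, the conjectured size.

For instance, taking for `S` the points at which `|Δ|` is (nearly) maximal on the intervals `[n², (n+1)²]`, `n` even, and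
then those for `n` odd, `∑_{n ≤ N} max_{[n²,(n+1)²]} |Δ|^p ≪ N^(1+p/2+ε)` for `p ≤ 6` (`Pool.Agent.NH14.SM.div_sep` has
this form, also for short intervals). The constant `C` depends only on `ε`.

Method: Voronoi summation, a splitting of the smoothed series into blocks, duality (Halász–Montgomery) with the second
derivative test for the kernel `∑ e(s √m)`, and a subdivision of the interval whose length depends on the block.
-/

set_option autoImplicit false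

namespace Pool.Agent.Results.MP_bc6037_nt.SeparatedPoints

/-- the error term of the divisor problem -/
noncomputable def D (x : ℝ) : ℝ :=
  (∑ j ∈ Finset.Icc 1 ⌊x⌋₊, (j.divisors.card : ℝ)) - x * Real.log x - (2 * Real.eulerMascheroniConstant - 1) * x

/-- `S` is a set of points of the interval `[Y, Y + K]` with mutual distances `≥ s` -/
def Spaced (s Y K : ℝ) (S : Finset ℝ) : Prop :=
  (∀ x ∈ S, Y ≤ x ∧ x ≤ Y + K) ∧ ∀ x ∈ S, ∀ y ∈ S, x ≠ y → s ≤ |x - y|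

theorem result : ∀ ε : ℝ, 0 < ε → ∃ C : ℝ, 0 < C ∧
    ∀ (Y K δ : ℝ) (S : Finset ℝ), 4 ≤ Y → 0 ≤ K → K ≤ Y → 1 / √Y ≤ δ → δ ≤ 1 → Spaced (δ * √Y) Y K S →
      (∀ V : ℝ, 1 ≤ V → (∀ x ∈ S, V * x ^ (1 / 4 : ℝ) ≤ |D x|) →
        (S.card : ℝ) ≤ C * Y ^ ε * (K / (√Y * V ^ 6) + K / (√Y * V ^ 8 * δ) + Y ^ (1 / 4 : ℝ) / V ^ 3 + 1 / (V ^ 2 * δ))) ∧
      (∀ p : ℝ, 0 ≤ p → p ≤ 8 →
        ∑ x ∈ S, |D x| ^ p ≤ C * Y ^ (p / 4 + ε) *
          (K / (√Y * δ) + K / √Y * Y ^ (max 0 ((p - 6) / 12)) + Y ^ (max (1 / 4) (p / 12)) +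
            Y ^ (max 0 ((p - 2) / 12)) / δ)) := by
  intro ε hε
  obtain ⟨C, hC, h1, -⟩ := Pool.Agent.NH14.SM.div_sep hε
  exact ⟨C, hC, fun Y K δ S hY hK hKY hδY hδ1 hS => h1 Y K δ S hY hK hKY hδY hδ1 hS.1 hS.2⟩

end Pool.Agent.Results.MP_bc6037_nt.SeparatedPoints
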