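import Mathlib
import Pool.Agent.NH96.SG.InstD

/-!
# Sign changes of the error term of the Dirichlet divisor problem (MP_bc6037_nt)

`Δ₂(x) = ∑_{n ≤ x} d(n) - x log x - (2γ - 1) x`.  For every level `v` the function
`Δ₂(x) - v x^{1/4}` changes sign infinitely densely on the scale `√x`, already when `√x` runs through
a window of length a constant times `(log X)⁴`.

The proof: `Δ₂(R²)/√R` is approximated in mean square, in all windows `[X, X + H]` of the variable `R`
with `H ≥ K (log X)⁴`, by trigonometric polynomials in the frequencies `2√m` (smoothed Voronoi formula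
and a continuous large sieve); the square roots of the squarefree numbers are linearly independent over
`ℚ`, so these polynomials are equidistributed, uniformly in the window, like a fixed function on an
infinite torus; and for that function the rate of crossings of the level `v` at scale `h` tends to
infinity as `h → 0`.
-/

namespace Pool.Agent.Results.MP_bc6037_nt.SignChanges

/-- the error term of the Dirichlet divisor problem -/
noncomputable def Delta (x : ℝ) : ℝ :=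
  (∑ n ∈ Finset.Icc 1 ⌊x⌋₊, (n.divisors.card : ℝ)) - x * Real.log x -
    (2 * Real.eulerMascheroniConstant - 1) * x

/-- For all real `v` and `C` there are `η, K > 0` and `X₀` such that for all `X ≥ X₀` and all
`H ≥ K (log X)⁴` there are `n ≥ C H` and `x₀ < x₁ < ... < xₙ` in `[X², (X + H)²]` for which the
numbers `Δ₂(xᵢ) - v xᵢ^{1/4}` alternate in sign and are at least `η xᵢ^{1/4}` in absolute value. -/
theorem result (v C : ℝ) : ∃ η K X₀ : ℝ, 0 < η ∧ 0 < K ∧ 4 ≤ X₀ ∧
    ∀ X : ℝ, X₀ ≤ X → ∀ H : ℝ, K * (Real.log X) ^ 4 ≤ H →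
      ∃ (n : ℕ) (x : Fin (n + 1) → ℝ), C * H ≤ n ∧ StrictMono x ∧
        (∀ i, x i ∈ Set.Icc (X ^ 2) ((X + H) ^ 2)) ∧
        (∀ i, η * (x i) ^ (1 / 4 : ℝ) ≤ |Delta (x i) - v * (x i) ^ (1 / 4 : ℝ)|) ∧
        ∀ i : Fin n, (Delta (x i.castSucc) - v * (x i.castSucc) ^ (1 / 4 : ℝ)) *
          (Delta (x i.succ) - v * (x i.succ) ^ (1 / 4 : ℝ)) < 0 := by
  obtain ⟨η, K, X0, hη, hK, hX0, hm⟩ := Pool.Agent.NH96.SG.div_main v C
  refine ⟨η, K, X0, hη, hK, hX0, fun X hX H hH => ?_⟩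
  obtain ⟨n, t, h1, h2, h3, h4⟩ := hm X hX H hH
  have ht : ∀ i, 0 < t i := fun i => by
    have := (h3 i).1.1
    linarith
  have hs : ∀ i, 0 < √(t i) := fun i => Real.sqrt_pos.mpr (ht i)
  have hr : ∀ i, ((t i) ^ 2) ^ (1 / 4 : ℝ) = √(t i) := by
    intro i
    rw [← Real.rpow_natCast, ← Real.rpow_mul (ht i).le, Real.sqrt_eq_rpow]
    norm_num
  have key : ∀ i, Delta ((t i) ^ 2) - v * ((t i) ^ 2) ^ (1 / 4 : ℝ) =
      (Pool.Agent.H387R2.Vor.Ed (t i) - v) * √(t i) := by
    intro i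
    have h := (hs i).ne'
    rw [hr i]
    unfold Pool.Agent.H387R2.Vor.Ed Pool.Agent.H387R2.Vor.Del Pool.Agent.H387R2.Vor.Dsum
      Pool.Agent.H387R2.Vor.dv Delta
    field_simp
  refine ⟨n, fun i => (t i) ^ 2, h1, ?_, ?_, fun i => ?_, fun i => ?_⟩
  · intro i j hij
    exact pow_lt_pow_left₀ (h2 hij) (ht i).le (by norm_num)
  · intro i
    have hX4 : 4 ≤ X := hX0.trans hX
    exact ⟨pow_le_pow_left₀ (by linarith) (h3 i).1.1 2, pow_le_pow_left₀ (ht i).le (h3 i).1.2 2⟩
  · show η * ((t i) ^ 2) ^ (1 / 4 : ℝ) ≤ |Delta ((t i) ^ 2) - v * ((t i) ^ 2) ^ (1 / 4 : ℝ)|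
    rw [key i, hr i, abs_mul, abs_of_pos (hs i)]
    exact mul_le_mul_of_nonneg_right (h3 i).2 (hs i).le
  · show (Delta ((t i.castSucc) ^ 2) - v * ((t i.castSucc) ^ 2) ^ (1 / 4 : ℝ)) *
          (Delta ((t i.succ) ^ 2) - v * ((t i.succ) ^ 2) ^ (1 / 4 : ℝ)) < 0
    rw [key, key]
    have h5 : (Pool.Agent.H387R2.Vor.Ed (t i.castSucc) - v) * √(t i.castSucc) *
        ((Pool.Agent.H387R2.Vor.Ed (t i.succ) - v) * √(t i.succ)) =
        ((Pool.Agent.H387R2.Vor.Ed (t i.castSucc) - v) * (Pool.Agent.H387R2.Vor.Ed (t i.succ) - v)) *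
          (√(t i.castSucc) * √(t i.succ)) := by ring
    rw [h5]
    exact mul_neg_of_neg_of_pos (h4 i) (mul_pos (hs _) (hs _))

end Pool.Agent.Results.MP_bc6037_nt.SignChanges
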